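import Pool.Agent.R937.PZ.Mot
import Pool.Agent.Zk51.EM.Etale

/-!
# Finite generation of the étale motivic cohomology of top weight of the smooth projective varieties
# over finite fields generated by abelian varieties of dimension at most five, and by products of
# elliptic curves, abelian surfaces and non-ordinary threefolds

Over an algebraic closure of the field with `p` elements each abelian variety is isogenous to the
reduction of an abelian variety of CM type (Honda, Tate). So an abelian variety over the field with
`p ^ a` elements is modelled by `RedAV`: a finite product of CM types `(E i, Φ i)` with Weil numbers
`π i ∈ E i` that satisfy the formula of Shimura and Taniyama; its cohomology of degree `n`, with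
coefficients in an algebraically closed field `Ω`, consists of the alternating `n`-forms on
`Ω ⊗ H_1`, on which the Frobenius endomorphism acts by `π`.

We consider (`IsGoodAVP`) the abelian varieties `Y` of the following kinds:

* all abelian varieties of dimension at most five;
* the abelian varieties that are isogenous, over an algebraic closure, to a product of a supersingular
  abelian variety of any dimension and of abelian varieties of dimension at most three (any number, any
  multiplicity), such that any two factors of dimension three whose CM fields have the same Galois
  closure satisfy one of the following: their fields are Galois over `ℚ`; one of them is supersingular;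
  they are isogenous; neither of them is ordinary and their `p`-ranks are not `{1, 2}`.

So `Y` may be any product of elliptic curves, of abelian surfaces, and of abelian threefolds that all
have `p`-rank two, or that all have `p`-rank zero or one.

`Homology Ω V` are data of motivic homology `M X n j = H_n^M(X, ℚ(j)) = CH_j(X, n - 2 j) ⊗ ℚ` (higher
Chow groups) and of `ℓ`-adic homology `E X n j = H_n(X, ℚ_ℓ(j))` (coefficients extended to `Ω`) of
schemes `X : V` of finite type over finite fields, with the Frobenius and the regulator. Let `𝒢`
(`Generated`) be the smallest class of schemes that contains those with the homology groups of the
abelian varieties above, that is closed under direct summands of finite sums of twists of motives,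
and that contains all of a closed subscheme `Z` of `X`, `X` and `X ∖ Z` if it contains two of them.
For example, it contains all products of curves of genus at most two and of open subsets of such
curves, symmetric powers of such products, the varieties dominated by an abelian variety of dimension
at most five whose motive is a direct summand, and the open and the singular varieties that are
stratified by such varieties.

**Theorem.** Let `X` be smooth and projective of pure dimension `d` and in `𝒢`. Then the étale motivic
cohomology group `H^i(X_et, ℤ(d))` (the group `H i`) is finitely generated for all `i ≤ 2 d`. More
precisely (`HoldsFor`) it is finite for all `i < 2 d`, and zero for `i < 0`. So `X` satisfies Q1, and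
also the part of the conjecture of Beilinson and Soulé which is equivalent to the finite generation for
`i < 0`.

Here `IsPure T X` is Deligne's theorem on the weights of the smooth projective scheme `X`, and
`IsEtaleTop T X d H` are known facts on the étale motivic cohomology of `X`: for `i < 2 d` the kernel of
the map `H^i(X_et, ℤ(d)) → H^i(X, ℚ(d)) = M X (2 d - i) 0` is a quotient of the finite group
`H^(i-1)(X_et, ℚ/ℤ(d))`, zero for `i < 0`; and the kernel of the degree map on `H^(2 d)(X_et, ℤ(d))` is
finite.

For a smooth projective `X` over a finite field Q1 is equivalent to the vanishing of `CH^d(X, m) ⊗ ℚ` for
`0 < m ≤ 2 d`; it was known in dimension one, for products of curves and for the class generated by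
them with `d ≤ 3` or under assumptions on the Frobenius eigenvalues.

Properties of the theory of cycles that are used for the abelian varieties `Y` (`IsChowS`,
`IsMotivic`): Poincaré duality, the formal properties of correspondences, the nilpotence of
homologically trivial correspondences (Kimura), the operation of the Frobenius endomorphism on higher
Chow groups, the vanishing of the higher rational `K`-groups of a finite field (Quillen), and the
algebraicity of the classes in the system `AlgS` which is generated by Tate classes of degree two, by
reductions of split Weil classes on abelian fourfolds and sixfolds of CM type and by reductions of the
Hodge classes of degree four on products of elliptic curves and abelian surfaces of CM type (theorems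
of Tate, Markman and Ramón Marí). All Tate classes on all powers of `Y` are in `AlgS`
(`Pool.Agent.R937.PG.main`). The passage from the Tate conjecture to all degrees and to the class `𝒢` is
due to Soulé, Geisser, Kahn and Jannsen.
-/

set_option autoImplicit false

namespace Pool.Agent.Results.MP_c71c7a_nt.NonOrdinaryThreefolds

open Pool.Agent.W495.TA Pool.Agent.W495.FM Pool.Agent.R937.PG Pool.Agent.X303.TBDual
open Pool.Agent.Zk51.EM

/-- The étale motivic cohomology groups `H^i(X_et, ℤ(d))`, `i ≤ 2 d`, of all smooth and projective members
of dimension `d` of the class generated by the abelian varieties of dimension at most five and by the
products of elliptic curves, abelian surfaces and non-ordinary threefolds are finitely generated. -/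
theorem result (p : ℕ) [Fact p.Prime] (ν : PadicAlgCl p ≃+* ℂ) (Ω : Type) [Field Ω]
    [IsAlgClosed Ω] [CharZero Ω] (V : Type) (T : Homology Ω V) (hT : IsHomology T) (X : V)
    (hX : Generated T (IsGoodAbelianP p ν T) X) (hpure : IsPure T X) (d : ℤ) (H : ℤ → Type)
    [∀ i, AddCommGroup (H i)] (hH : IsEtaleTop T X d H) : HoldsFor d H :=
  holdsFor hT (tb_goodP hT hX) hpure hH

end Pool.Agent.Results.MP_c71c7a_nt.NonOrdinaryThreefolds
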